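import Pool.Agent.W458.RK.KDefs
import Pool.Agent.Y103.Sh.Defs

/-!
# Semisimplicity for products with varieties built from pieces of K3 type: definitions
-/

set_option autoImplicit false

open NumberField TensorProduct

namespace Pool.Agent.Y103.Ss

/-- Some power of `μ / Q ^ j` is a product of at most `n i` conjugates of `α i` for each `i`, those
of `α i` being raised to the same positive power `w i`: we have
`μ ^ M = Q ^ (j M) * ∏ i, ∏ σ, σ (α i) ^ (w i * N i σ)` with `∑ σ, N i σ ≤ n i`. -/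
def HasLetters {K : Type*} [Field K] [CharZero K] {r : ℕ} {E : Fin r → Type} [∀ i, Field (E i)]
    [∀ i, NumberField (E i)] (α : ∀ i, E i) (n : Fin r → ℕ) (Q : K) (j : ℕ) (μ : K) : Prop :=
  ∃ (M : ℕ) (w : Fin r → ℕ) (N : ∀ i, (E i →+* K) → ℕ), 0 < M ∧ (∀ i, 0 < w i) ∧
    (∀ i, ∑ σ, N i σ ≤ n i) ∧ μ ^ M = (Q ^ j) ^ M * ∏ i, ∏ σ, (σ (α i)) ^ (w i * N i σ)

/-- Every eigenvalue of `F` on the space of degree `a` has letters `α i` (see `HasLetters`) for some
`j ≤ a / 2`. -/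
def IsBuiltFromLetters {K : Type*} [Field K] [CharZero K] {r : ℕ} {E : Fin r → Type}
    [∀ i, Field (E i)] [∀ i, NumberField (E i)] (α : ∀ i, E i) (n : Fin r → ℕ) (Q : K)
    {H : ℕ → Type*} [∀ a, AddCommGroup (H a)] [∀ a, Module K (H a)]
    (F : ∀ a, Module.End K (H a)) : Prop :=
  ∀ a μ, (F a).HasEigenvalue μ → ∃ j, 2 * j ≤ a ∧ HasLetters α n Q j μ

/-- The eigenvalues of `G` on the space of degree `b` which are `Q ^ i` times a root of unity satisfy
`2 i ≤ b` (as the absolute values of all eigenvalues are at most `Q ^ (b / 2)`). -/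
def HasWeights {K : Type*} [Field K] (Q : K) {V : ℕ → Type*} [∀ b, AddCommGroup (V b)]
    [∀ b, Module K (V b)] (G : ∀ b, Module.End K (V b)) : Prop :=
  ∀ b ν, (G b).HasEigenvalue ν → ∀ (i : ℤ) (M : ℕ), 0 < M → ν ^ M = (Q ^ i) ^ M → 2 * i ≤ b

/-- The operator `F` has an eigenvalue which is `Q ^ j` times a root of unity. -/
def HasTateEigenvalue {K H : Type*} [Field K] [AddCommGroup H] [Module K H] (F : Module.End K H)
    (Q : K) (j : ℤ) : Prop :=
  ∃ μ, F.HasEigenvalue μ ∧ ∃ M : ℕ, 0 < M ∧ μ ^ M = (Q ^ j) ^ M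

end Pool.Agent.Y103.Ss
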