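import Pool.Agent.Y103.Ss.Defs
import Pool.Agent.W458.RK.Final

/-!
# Semisimple eigenvalues of tensor products
-/

set_option autoImplicit false
set_option linter.unusedSectionVars false

open Polynomial TensorProduct

namespace Pool.Agent.Y103.Ss

open Pool.Agent.W458.RK Pool.Agent.W458.MF

variable {K H V : Type*} [Field K] [CharZero K] [AddCommGroup H] [Module K H]
  [AddCommGroup V] [Module K V] {F : Module.End K H} {G : Module.End K V} {T : Module.End K V}

theorem semisimpleAt_iff {Q : K} (hQ : Q ≠ 0) {c : ℤ} : SemisimpleAt T Q c ↔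
    ∀ v, Killed T (Q ^ c) 2 v → Killed T (Q ^ c) 1 v := by
  constructor
  · rintro h v ⟨N, hN, hv⟩
    refine ⟨N, hN, ?_⟩
    rw [pow_one]
    exact h N hN v hv
  · intro h N hN v hv
    obtain ⟨M, hM, h3⟩ := killed_one_iff.1 (h v ⟨N, hN, hv⟩)
    refine eig_of_pow (pow_ne_zero _ (zpow_ne_zero _ hQ)) hv hM ?_
    rw [← pow_mul, mul_comm N M, pow_mul, Module.End.pow_apply,
      Pool.Agent.W534.iterate_eig (fun a x => map_smul (T ^ M) a x) h3 N, ← pow_mul, ← pow_mul,
      mul_comm M N]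

/-- Semisimplicity kills all powers. -/
theorem killed_of_semisimpleAt {Q : K} {c : ℤ} (h : SemisimpleAt T Q c) {N : ℕ} (hN : 0 < N) :
    ∀ (a : ℕ) (v : V), ((T ^ N - ((Q ^ c) ^ N) • (1 : Module.End K V)) ^ (a + 1)) v = 0 →
      (T ^ N - ((Q ^ c) ^ N) • (1 : Module.End K V)) v = 0 := by
  intro a
  induction a with
  | zero => intro v hv; simpa using hv
  | succ a ih =>
    intro v hv
    refine h N hN v ?_
    rw [pow_two, Module.End.mul_apply]
    refine ih _ ?_
    rw [← Module.End.mul_apply, ← pow_succ]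
    exact hv

/-- On the generalised eigenspaces of the eigenvalues `Q ^ c` times a root of unity. -/
theorem killed_of_gen {Q : K} {c : ℤ} (h : SemisimpleAt T Q c) {μ : K} {M : ℕ} (hM : 0 < M)
    (hμ : μ ^ M = (Q ^ c) ^ M) {v : V} (hv : v ∈ T.maxGenEigenspace μ) :
    Killed T (Q ^ c) 1 v := by
  obtain ⟨a, ha⟩ := (Module.End.mem_maxGenEigenspace T μ v).1 hv
  refine ⟨M, hM, ?_⟩
  rw [pow_one]
  refine killed_of_semisimpleAt h hM a v ?_
  have h1 : (X - C μ : K[X]) ∣ X ^ M - C (μ ^ M) := by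
    rw [C_pow]
    exact sub_dvd_pow_sub_pow _ _ M
  obtain ⟨g, hg⟩ := pow_dvd_pow_of_dvd h1 (a + 1)
  rw [← hμ, ← aeval_killed, hg, mul_comm, map_mul, Module.End.mul_apply]
  have h2 : (aeval T ((X - C μ : K[X]) ^ (a + 1))) v = 0 := by
    rw [map_pow, map_sub, aeval_X, aeval_C, Algebra.algebraMap_eq_smul_one, pow_succ',
      Module.End.mul_apply, ha, map_zero]
  rw [h2, map_zero]

/-- a vector killed tensor an eigenvector -/
theorem killed_tmul {Q : K} (c : ℤ) (j : ℤ) (hQ : Q ≠ 0) {y : H} {v : V} {M : ℕ}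
    {a : ℕ} (hy : ((F ^ M - ((Q ^ j) ^ M) • (1 : Module.End K H)) ^ a) y = 0)
    (hv : (G ^ M) v = (Q ^ (c - j)) ^ M • v) :
    (((TensorProduct.map F G : Module.End K (H ⊗[K] V)) ^ M -
      ((Q ^ c) ^ M) • (1 : Module.End K (H ⊗[K] V))) ^ a) (y ⊗ₜ[K] v) = 0 := by
  have key : ∀ z : H, ((TensorProduct.map F G : Module.End K (H ⊗[K] V)) ^ M -
      ((Q ^ c) ^ M) • (1 : Module.End K (H ⊗[K] V))) (z ⊗ₜ[K] v) =
      (Q ^ (c - j)) ^ M • (((F ^ M - ((Q ^ j) ^ M) • (1 : Module.End K H)) z) ⊗ₜ[K] v) := by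
    intro z
    have e1 : (Q ^ c) ^ M = (Q ^ (c - j)) ^ M * (Q ^ j) ^ M := by
      rw [← mul_pow, ← zpow_add₀ hQ, sub_add_cancel]
    rw [LinearMap.sub_apply, map_pow_tmul, hv, LinearMap.smul_apply, Module.End.one_apply,
      LinearMap.sub_apply, LinearMap.smul_apply, Module.End.one_apply, TensorProduct.sub_tmul,
      smul_sub, TensorProduct.tmul_smul, e1, mul_smul, ← TensorProduct.smul_tmul']
  have key2 : ∀ (a : ℕ) (z : H), (((TensorProduct.map F G : Module.End K (H ⊗[K] V)) ^ M -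
      ((Q ^ c) ^ M) • (1 : Module.End K (H ⊗[K] V))) ^ a) (z ⊗ₜ[K] v) =
      ((Q ^ (c - j)) ^ M) ^ a •
        ((((F ^ M - ((Q ^ j) ^ M) • (1 : Module.End K H)) ^ a) z) ⊗ₜ[K] v) := by
    intro a
    induction a with
    | zero => intro z; simp
    | succ a ih =>
      intro z
      rw [pow_succ, Module.End.mul_apply, key, map_smul, ih, smul_smul, pow_succ,
        pow_succ (F ^ M - ((Q ^ j) ^ M) • (1 : Module.End K H)), Module.End.mul_apply, mul_comm]
  rw [key2, hy, TensorProduct.zero_tmul, smul_zero]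

/-- the same on the other side -/
theorem killed_tmul' {Q : K} (c : ℤ) (j : ℤ) (hQ : Q ≠ 0) {y : H} {v : V} {M : ℕ}
    {a : ℕ} (hy : (F ^ M) y = (Q ^ j) ^ M • y)
    (hv : ((G ^ M - ((Q ^ (c - j)) ^ M) • (1 : Module.End K V)) ^ a) v = 0) :
    (((TensorProduct.map F G : Module.End K (H ⊗[K] V)) ^ M -
      ((Q ^ c) ^ M) • (1 : Module.End K (H ⊗[K] V))) ^ a) (y ⊗ₜ[K] v) = 0 := by
  have key : ∀ z : V, ((TensorProduct.map F G : Module.End K (H ⊗[K] V)) ^ M -
      ((Q ^ c) ^ M) • (1 : Module.End K (H ⊗[K] V))) (y ⊗ₜ[K] z) =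
      (Q ^ j) ^ M • (y ⊗ₜ[K] ((G ^ M - ((Q ^ (c - j)) ^ M) • (1 : Module.End K V)) z)) := by
    intro z
    have e1 : (Q ^ c) ^ M = (Q ^ j) ^ M * (Q ^ (c - j)) ^ M := by
      rw [← mul_pow, ← zpow_add₀ hQ, add_sub_cancel]
    rw [LinearMap.sub_apply, map_pow_tmul, hy, LinearMap.smul_apply, Module.End.one_apply,
      LinearMap.sub_apply, LinearMap.smul_apply, Module.End.one_apply, TensorProduct.tmul_sub,
      smul_sub, ← TensorProduct.smul_tmul', e1, mul_smul, TensorProduct.tmul_smul]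
  have key2 : ∀ (a : ℕ) (z : V), (((TensorProduct.map F G : Module.End K (H ⊗[K] V)) ^ M -
      ((Q ^ c) ^ M) • (1 : Module.End K (H ⊗[K] V))) ^ a) (y ⊗ₜ[K] z) =
      ((Q ^ j) ^ M) ^ a •
        (y ⊗ₜ[K] (((G ^ M - ((Q ^ (c - j)) ^ M) • (1 : Module.End K V)) ^ a) z)) := by
    intro a
    induction a with
    | zero => intro z; simp
    | succ a ih =>
      intro z
      rw [pow_succ, Module.End.mul_apply, key, map_smul, ih, smul_smul, pow_succ,
        pow_succ (G ^ M - ((Q ^ (c - j)) ^ M) • (1 : Module.End K V)), Module.End.mul_apply,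
        mul_comm]
  rw [key2, hv, TensorProduct.tmul_zero, smul_zero]

theorem tmul_zero_left {y : H} {v : V} (hv : v ≠ 0) (h : y ⊗ₜ[K] v = 0) : y = 0 := by
  obtain ⟨f, hf⟩ := Module.Projective.exists_dual_ne_zero K hv
  have h9 := congrArg (fun z => TensorProduct.rid K H (TensorProduct.map LinearMap.id f z)) h
  simp only [TensorProduct.map_tmul, TensorProduct.rid_tmul, LinearMap.id_apply, map_zero] at h9
  rcases smul_eq_zero.1 h9 with h | h
  · exact absurd h hf
  · exact h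

theorem tmul_zero_right {y : H} {v : V} (hy : y ≠ 0) (h : y ⊗ₜ[K] v = 0) : v = 0 := by
  obtain ⟨f, hf⟩ := Module.Projective.exists_dual_ne_zero K hy
  have h9 := congrArg (fun z => TensorProduct.lid K V (TensorProduct.map f LinearMap.id z)) h
  simp only [TensorProduct.map_tmul, TensorProduct.lid_tmul, LinearMap.id_apply, map_zero] at h9
  rcases smul_eq_zero.1 h9 with h | h
  · exact absurd h hf
  · exact h

theorem eigenvalue_of_gen {μ : K} {v : V} (hv0 : v ≠ 0) (hv : v ∈ T.maxGenEigenspace μ) :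
    T.HasEigenvalue μ := by
  obtain ⟨k, hk⟩ := (Module.End.mem_maxGenEigenspace T μ v).1 hv
  refine Module.End.hasEigenvalue_of_hasGenEigenvalue (k := k) fun h => hv0 ?_
  have h1 : v ∈ T.genEigenspace μ k := Module.End.mem_genEigenspace_nat.2 hk
  rw [h] at h1
  exact (Submodule.mem_bot K).1 h1

/-- a Tate eigenvector -/
theorem exists_vec {Q : K} {c : ℤ} (h : HasTateEigenvalue T Q c) :
    ∃ v, v ≠ 0 ∧ ∃ M : ℕ, 0 < M ∧ (T ^ M) v = (Q ^ c) ^ M • v := by
  obtain ⟨μ, hμ, M, hM, h1⟩ := h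
  obtain ⟨v, hv⟩ := hμ.exists_hasEigenvector
  refine ⟨v, hv.2, M, hM, ?_⟩
  rw [Module.End.pow_apply, Pool.Agent.W534.iterate_eig (fun a x => map_smul T a x)
    (Module.End.mem_eigenspace_iff.1 hv.1) M, h1]

theorem pow_vec {μ : K} {v : V} {M : ℕ} (h : (T ^ M) v = μ ^ M • v) (N : ℕ) :
    (T ^ (M * N)) v = μ ^ (M * N) • v := by
  rw [pow_mul, Module.End.pow_apply, Pool.Agent.W534.iterate_eig (fun a x => map_smul (T ^ M) a x)
    h N, ← pow_mul]

/-- **Semisimple eigenvalues of tensor products.** -/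
theorem semisimpleAt_tensor [IsAlgClosed K] [Module.Finite K H] [Module.Finite K V] {Q : K}
    (hQ : Q ≠ 0) (c : ℤ) (j : ℕ)
    (hlow : ∀ (μ ν : K) (N : ℕ), 0 < N → F.HasEigenvalue μ → G.HasEigenvalue ν →
      (μ * ν) ^ N = (Q ^ c) ^ N → ∃ M : ℕ, 0 < M ∧ μ ^ M = (Q ^ j) ^ M) :
    SemisimpleAt (TensorProduct.map F G) Q c ↔
      (HasTateEigenvalue F Q j → HasTateEigenvalue G Q (c - j) →
        SemisimpleAt F Q j ∧ SemisimpleAt G Q (c - j)) := by
  classical
  constructor
  · intro h hF hG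
    obtain ⟨y, hy0, M₁, hM₁, hy⟩ := exists_vec hF
    obtain ⟨v, hv0, M₂, hM₂, hv⟩ := exists_vec hG
    refine ⟨fun N hN x hx => ?_, fun N hN x hx => ?_⟩
    · have h1 : (((TensorProduct.map F G : Module.End K (H ⊗[K] V)) ^ (N * M₂) -
          ((Q ^ c) ^ (N * M₂)) • (1 : Module.End K (H ⊗[K] V))) ^ 2) (x ⊗ₜ[K] v) = 0 := by
        refine killed_tmul c (j : ℤ) hQ (killed_mul hx M₂) ?_
        rw [mul_comm N M₂]
        exact pow_vec hv N
      have h2 := h (N * M₂) (Nat.mul_pos hN hM₂) _ h1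
      have h3 : x ⊗ₜ[K] v ∈ LinearMap.ker ((TensorProduct.map F G : Module.End K (H ⊗[K] V)) ^
          (N * M₂) - ((Q ^ c) ^ (N * M₂)) • (1 : Module.End K (H ⊗[K] V))) := h2
      have h4 : (F ^ (N * M₂)) x = (Q ^ (j : ℤ)) ^ (N * M₂) • x := by
        have e1 : (Q ^ c) ^ (N * M₂) = (Q ^ (c - j)) ^ (N * M₂) * (Q ^ (j : ℤ)) ^ (N * M₂) := by
          rw [← mul_pow, ← zpow_add₀ hQ, sub_add_cancel]
        rw [LinearMap.sub_apply, map_pow_tmul, mul_comm N M₂, pow_vec hv N, mul_comm M₂ N,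
          LinearMap.smul_apply, Module.End.one_apply, e1, TensorProduct.tmul_smul, mul_smul,
          TensorProduct.smul_tmul' ((Q ^ (j : ℤ)) ^ (N * M₂)), ← smul_sub, ← TensorProduct.sub_tmul] at h2
        rcases smul_eq_zero.1 h2 with h5 | h5
        · exact absurd h5 (pow_ne_zero _ (zpow_ne_zero _ hQ))
        · exact sub_eq_zero.1 (tmul_zero_left hv0 h5)
      refine eig_of_pow (pow_ne_zero _ (zpow_ne_zero _ hQ)) hx hM₂ ?_
      rw [← pow_mul, ← pow_mul]
      exact h4
    · have h1 : (((TensorProduct.map F G : Module.End K (H ⊗[K] V)) ^ (N * M₁) -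
          ((Q ^ c) ^ (N * M₁)) • (1 : Module.End K (H ⊗[K] V))) ^ 2) (y ⊗ₜ[K] x) = 0 := by
        refine killed_tmul' c (j : ℤ) hQ ?_ (killed_mul hx M₁)
        rw [mul_comm N M₁]
        exact pow_vec hy N
      have h2 := h (N * M₁) (Nat.mul_pos hN hM₁) _ h1
      have h4 : (G ^ (N * M₁)) x = (Q ^ (c - j)) ^ (N * M₁) • x := by
        have e1 : (Q ^ c) ^ (N * M₁) = (Q ^ (j : ℤ)) ^ (N * M₁) * (Q ^ (c - j)) ^ (N * M₁) := by
          rw [← mul_pow, ← zpow_add₀ hQ, add_sub_cancel]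
        rw [LinearMap.sub_apply, map_pow_tmul, mul_comm N M₁, pow_vec hy N, mul_comm M₁ N,
          LinearMap.smul_apply, Module.End.one_apply, e1, ← TensorProduct.smul_tmul', mul_smul,
          ← TensorProduct.tmul_smul ((Q ^ (c - j)) ^ (N * M₁)), ← smul_sub, ← TensorProduct.tmul_sub] at h2
        rcases smul_eq_zero.1 h2 with h5 | h5
        · exact absurd h5 (pow_ne_zero _ (zpow_ne_zero _ hQ))
        · exact sub_eq_zero.1 (tmul_zero_right hy0 h5)
      refine eig_of_pow (pow_ne_zero _ (zpow_ne_zero _ hQ)) hx hM₁ ?_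
      rw [← pow_mul, ← pow_mul]
      exact h4
  · intro h
    rw [semisimpleAt_iff hQ]
    have key := fun (a : ℕ) (x : H ⊗[K] V) => tensor_killed (F := F) (G := G) Q hQ c
      (fun i => if i = j then killedSub F (Q ^ j) 1 else ⊥) (by
        intro i y hy
        by_cases h : i = j
        · subst h
          rw [if_pos rfl] at hy
          exact hy
        · rw [if_neg h] at hy
          rw [(Submodule.mem_bot K).1 hy]
          exact killed_zero) (by
        intro μ ν N hN hν hrel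
        by_cases hμ : F.HasEigenvalue μ
        · obtain ⟨M, hM, h1⟩ := hlow μ ν N hN hμ hν hrel
          have h1' : μ ^ M = (Q ^ (j : ℤ)) ^ M := by rw [h1, zpow_natCast]
          have hμ0 : μ ≠ 0 := by
            rintro rfl
            rw [zero_pow hM.ne'] at h1
            exact pow_ne_zero _ (pow_ne_zero _ hQ) h1.symm
          have h2 : ν ^ (M * N) = (Q ^ (c - j)) ^ (M * N) := by
            have h3 : (μ * ν) ^ (M * N) = (Q ^ c) ^ (M * N) := by
              rw [mul_comm M N, pow_mul, hrel, ← pow_mul]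
            have h4 : μ ^ (M * N) = (Q ^ (j : ℤ)) ^ (M * N) := by
              rw [pow_mul, h1', ← pow_mul]
            have e1 : (Q ^ c) ^ (M * N) = (Q ^ (j : ℤ)) ^ (M * N) * (Q ^ (c - j)) ^ (M * N) := by
              rw [← mul_pow, ← zpow_add₀ hQ, add_sub_cancel]
            rw [mul_pow, h4, e1] at h3
            exact mul_left_cancel₀ (pow_ne_zero _ (zpow_ne_zero _ hQ)) h3
          have hss := h ⟨μ, hμ, M, hM, h1'⟩ ⟨ν, hν, M * N, Nat.mul_pos hM hN, h2⟩
          refine le_trans ?_ (le_iSup _ j)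
          rw [if_pos rfl]
          intro y hy
          have h5 := killed_of_gen hss.1 hM h1' hy
          rw [zpow_natCast] at h5
          exact h5
        · intro y hy
          by_cases hy0 : y = 0
          · rw [hy0]
            exact Submodule.zero_mem _
          · exact absurd (eigenvalue_of_gen hy0 hy) hμ) a x
    intro x hx
    have h1 := (key 2 x).1 hx
    refine (key 1 x).2 (Submodule.span_le.2 ?_ h1)
    rintro _ ⟨i, y, v, hy, hv, rfl⟩
    by_cases hy0 : y = 0
    · rw [hy0, TensorProduct.zero_tmul]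
      exact Submodule.zero_mem _
    by_cases hv0 : v = 0
    · rw [hv0, TensorProduct.tmul_zero]
      exact Submodule.zero_mem _
    by_cases hij : i = j
    · subst hij
      have hT : HasTateEigenvalue F Q (i : ℤ) := by
        have hy' := hy
        simp only [if_true] at hy'
        obtain ⟨M, hM, h2⟩ := killed_one_iff.1 hy'
        have h3 : (F ^ M).HasEigenvalue ((Q ^ i) ^ M) :=
          Module.End.hasEigenvalue_of_hasEigenvector ⟨Module.End.mem_eigenspace_iff.2 h2, hy0⟩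
        rw [Module.End.hasEigenvalue_iff_mem_spectrum, spectrum.map_pow_of_pos _ hM] at h3
        obtain ⟨β, hβ, h4⟩ := h3
        refine ⟨β, Module.End.hasEigenvalue_iff_mem_spectrum.2 hβ, M, hM, ?_⟩
        rw [zpow_natCast]
        exact h4
      have hT' : HasTateEigenvalue G Q (c - i) := by
        obtain ⟨M, hM, h2⟩ := hv
        have h3 : (G ^ M).HasEigenvalue ((Q ^ (c - (i : ℤ))) ^ M) :=
          eigenvalue_of_gen hv0 (gen_of_killed h2)
        rw [Module.End.hasEigenvalue_iff_mem_spectrum, spectrum.map_pow_of_pos _ hM] at h3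
        obtain ⟨β, hβ, h4⟩ := h3
        exact ⟨β, Module.End.hasEigenvalue_iff_mem_spectrum.2 hβ, M, hM, h4⟩
      exact Submodule.subset_span ⟨i, y, v, hy, (semisimpleAt_iff hQ).1 (h hT hT').2 v hv, rfl⟩
    · simp only [if_neg hij] at hy
      exact absurd ((Submodule.mem_bot K).1 hy) hy0

end Pool.Agent.Y103.Ss
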