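import Pool.Agent.Y103.Ss.Lin
import Pool.Agent.Y103.Sh.Arith

/-!
# Semisimplicity for products with varieties built from pieces of K3 type
-/

set_option autoImplicit false
set_option linter.unusedSectionVars false

open Polynomial TensorProduct NumberField

namespace Pool.Agent.Y103.Ss

open Pool.Agent.W458.RK Pool.Agent.W458.MF Pool.Agent.Y103.Hk Pool.Agent.Y103.Sh
  Pool.Agent.W517.K3 Pool.Agent.Y138.KC Pool.Agent.TH132.A Pool.Agent.W536.RR
  Pool.Agent.TH121.KT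

variable {K H V : Type*} [Field K] [CharZero K] [IsAlgClosed K] [AddCommGroup H] [Module K H]
  [AddCommGroup V] [Module K V] {F : Module.End K H} {G : Module.End K V}
  {p : ℕ} [Fact p.Prime] {ι : Qb →+* PadicAlgCl p} {r : ℕ} {E : Fin r → Type}
  [∀ i, Field (E i)] [∀ i, NumberField (E i)] [∀ i, IsCMField (E i)] {α : ∀ i, E i}
  {n : Fin r → ℕ} {𝓛 : Set (IntermediateField ℚ Qb)} {S L₀ : Fin r → IntermediateField ℚ Qb}

theorem low_of_letters (H : FamCond ι α n 𝓛 S L₀) {Q : ℕ} (hQ : 0 < Q) {j : ℕ} {c : ℤ}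
    {μ ν : K} {N : ℕ} (hN : 0 < N) (hμ : HasLetters α n (Q : K) j μ)
    (hν : IsSlopeProduct ι 𝓛 ν) (hrel : (μ * ν) ^ N = ((Q : K) ^ c) ^ N) :
    ∃ M : ℕ, 0 < M ∧ μ ^ M = ((Q : K) ^ j) ^ M := by
  classical
  have hQK : (Q : K) ≠ 0 := by exact_mod_cast hQ.ne'
  obtain ⟨M, w, m, hM, hw, hm, h1⟩ := hμ
  have hν0 : ν ≠ 0 := by
    rintro rfl
    rw [mul_zero, zero_pow hN.ne'] at hrel
    exact pow_ne_zero _ (zpow_ne_zero _ hQK) hrel.symm
  refine ⟨M * 2, by omega, ?_⟩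
  let x₀ : ℚ := ((Q : ℚ) ^ c) ^ (N * M) * ((((Q : ℚ) ^ j) ^ M) ^ N)⁻¹
  have hx₀ : (x₀ : K) = ((Q : K) ^ c) ^ (N * M) * ((((Q : K) ^ j) ^ M) ^ N)⁻¹ := by
    simp only [x₀]
    push_cast
    rfl
  have h2 : (∏ i, ∏ σ : E i →+* K, (σ (α i)) ^ ((N * w i) * m i σ)) * ν ^ (N * M) = (x₀ : K) := by
    have h3 : (∏ i, ∏ σ : E i →+* K, (σ (α i)) ^ ((N * w i) * m i σ)) =
        (∏ i, ∏ σ : E i →+* K, (σ (α i)) ^ (w i * m i σ)) ^ N := by
      rw [← Finset.prod_pow]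
      refine Finset.prod_congr rfl fun i _ => ?_
      rw [← Finset.prod_pow]
      refine Finset.prod_congr rfl fun σ _ => ?_
      rw [← pow_mul]
      congr 1
      ring
    have h4 : (μ * ν) ^ (N * M) = ((Q : K) ^ c) ^ (N * M) := by
      rw [pow_mul, hrel, ← pow_mul]
    have h5 : μ ^ (N * M) = ((((Q : K) ^ j) ^ M) ^ N) *
        (∏ i, ∏ σ : E i →+* K, (σ (α i)) ^ (w i * m i σ)) ^ N := by
      rw [← mul_pow, ← h1, ← pow_mul, mul_comm]
    have h6 : ((((Q : K) ^ j) ^ M) ^ N) ≠ 0 := pow_ne_zero _ (pow_ne_zero _ (pow_ne_zero _ hQK))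
    rw [h3, hx₀, ← h4, mul_pow, h5]
    generalize ((((Q : K) ^ j) ^ M) ^ N) = B at h6
    field_simp
  have h3 := balanced_fam_closed H hm (w := fun i => N * w i)
    (fun i => Nat.mul_pos hN (hw i)) hν hν0 (x₀ := x₀) h2
  have h4 : ∀ i, (∏ σ : E i →+* K, (σ (α i)) ^ (w i * m i σ)) ^ 2 = 1 := by
    intro i
    have h5 : (∏ σ : E i →+* K, (σ (α i)) ^ (w i * m i σ)) =
        (∏ σ : E i →+* K, (σ (α i)) ^ (w i * m i σ))⁻¹ := by
      rw [← Finset.prod_inv_distrib]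
      refine Finset.prod_bij' (fun σ _ => cj σ) (fun σ _ => cj σ) (by simp) (by simp)
        (fun σ _ => cj_cj σ) (fun σ _ => cj_cj σ) fun σ _ => ?_
      rw [cj_val (H.rel i).unitary, ← h3 i σ, inv_pow, inv_inv]
    have h6 : (∏ σ : E i →+* K, (σ (α i)) ^ (w i * m i σ)) ≠ 0 := by
      refine Finset.prod_ne_zero_iff.2 fun σ _ => pow_ne_zero _ ?_
      have := (H.rel i).unitary
      intro h
      have h7 : α i = 0 := by simpa using h
      obtain ⟨φ⟩ : Nonempty (E i →+* ℂ) := inferInstance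
      have h8 := this φ
      rw [h7, map_zero, norm_zero] at h8
      exact zero_ne_one h8
    rw [pow_two]
    nth_rw 1 [h5]
    exact inv_mul_cancel₀ h6
  rw [pow_mul, h1, mul_pow, ← Finset.prod_pow, Finset.prod_congr rfl fun i _ => h4 i,
    Finset.prod_const_one, mul_one, ← pow_mul]

/-- no Tate eigenvalue -/
theorem semisimpleAt_of_not [Module.Finite K H] {Q : K} {c : ℤ}
    (h : ¬ HasTateEigenvalue F Q c) : SemisimpleAt F Q c := by
  intro N hN v hv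
  by_cases hv0 : v = 0
  · rw [hv0, map_zero]
  · exfalso
    have h3 : (F ^ N).HasEigenvalue ((Q ^ c) ^ N) := eigenvalue_of_gen hv0 (gen_of_killed hv)
    rw [Module.End.hasEigenvalue_iff_mem_spectrum, spectrum.map_pow_of_pos _ hN] at h3
    obtain ⟨β, hβ, h4⟩ := h3
    exact h ⟨β, Module.End.hasEigenvalue_iff_mem_spectrum.2 hβ, N, hN, h4⟩

section graded

variable {A B : ℕ → Type*} [∀ a, AddCommGroup (A a)] [∀ a, Module K (A a)]
  [∀ a, Module.Finite K (A a)] [∀ b, AddCommGroup (B b)] [∀ b, Module K (B b)]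
  [∀ b, Module.Finite K (B b)] {FA : ∀ a, Module.End K (A a)} {GB : ∀ b, Module.End K (B b)}

theorem low_graded (H : FamCond ι α n 𝓛 S L₀) {Q : ℕ} (hQ : 0 < Q)
    (hA : IsBuiltFromLetters α n (Q : K) FA) (hB : HasWeights (Q : K) GB)
    (hU : ∀ b ν, (GB b).HasEigenvalue ν → IsSlopeProduct ι 𝓛 ν) {a b c : ℕ}
    (hab : a + b = 2 * c) {μ ν : K} {N : ℕ} (hN : 0 < N) (hμ : (FA a).HasEigenvalue μ)
    (hν : (GB b).HasEigenvalue ν) (hrel : (μ * ν) ^ N = ((Q : K) ^ (c : ℤ)) ^ N) :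
    ∃ j, a = 2 * j ∧ ∃ M : ℕ, 0 < M ∧ μ ^ M = ((Q : K) ^ j) ^ M := by
  have hQK : (Q : K) ≠ 0 := by exact_mod_cast hQ.ne'
  obtain ⟨j, hj, hL⟩ := hA a μ hμ
  obtain ⟨M, hM, h1⟩ := low_of_letters H hQ hN hL (hU b ν hν) hrel
  refine ⟨j, ?_, M, hM, h1⟩
  have h2 : ν ^ (M * N) = ((Q : K) ^ ((c : ℤ) - j)) ^ (M * N) := by
    have h3 : (μ * ν) ^ (M * N) = ((Q : K) ^ (c : ℤ)) ^ (M * N) := by
      rw [mul_comm M N, pow_mul, hrel, ← pow_mul]
    have h4 : μ ^ (M * N) = ((Q : K) ^ (j : ℤ)) ^ (M * N) := by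
      rw [pow_mul, h1, ← pow_mul, zpow_natCast]
    have e1 : ((Q : K) ^ (c : ℤ)) ^ (M * N) =
        ((Q : K) ^ (j : ℤ)) ^ (M * N) * ((Q : K) ^ ((c : ℤ) - j)) ^ (M * N) := by
      rw [← mul_pow, ← zpow_add₀ hQK, add_sub_cancel]
    rw [mul_pow, h4, e1] at h3
    exact mul_left_cancel₀ (pow_ne_zero _ (zpow_ne_zero _ hQK)) h3
  have h3 := hB b ν hν _ _ (Nat.mul_pos hM hN) h2
  omega

/-- **Semisimplicity for the products, degree by degree.** -/
theorem main_degree (H : FamCond ι α n 𝓛 S L₀) {Q : ℕ} (hQ : 0 < Q)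
    (hA : IsBuiltFromLetters α n (Q : K) FA) (hB : HasWeights (Q : K) GB)
    (hU : ∀ b ν, (GB b).HasEigenvalue ν → IsSlopeProduct ι 𝓛 ν) (c : ℕ) :
    (∀ a b, a + b = 2 * c → SemisimpleAt (TensorProduct.map (FA a) (GB b)) (Q : K) c) ↔
      ∀ j i : ℕ, j + i = c → HasTateEigenvalue (FA (2 * j)) (Q : K) j →
        HasTateEigenvalue (GB (2 * i)) (Q : K) i →
        SemisimpleAt (FA (2 * j)) (Q : K) j ∧ SemisimpleAt (GB (2 * i)) (Q : K) i := by
  have hQK : (Q : K) ≠ 0 := by exact_mod_cast hQ.ne'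
  have even : ∀ j i : ℕ, j + i = c →
      (SemisimpleAt (TensorProduct.map (FA (2 * j)) (GB (2 * i))) (Q : K) c ↔
        (HasTateEigenvalue (FA (2 * j)) (Q : K) j → HasTateEigenvalue (GB (2 * i)) (Q : K) i →
        SemisimpleAt (FA (2 * j)) (Q : K) j ∧ SemisimpleAt (GB (2 * i)) (Q : K) i)) := by
    intro j i hji
    have h1 := semisimpleAt_tensor (F := FA (2 * j)) (G := GB (2 * i)) hQK (c : ℤ) j
      (fun μ ν N hN hμ hν hrel => by
        obtain ⟨j', hj', M, hM, h⟩ := low_graded H hQ hA hB hU (c := c) (by omega) hN hμ hν hrel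
        obtain rfl : j = j' := by omega
        exact ⟨M, hM, h⟩)
    have e : (c : ℤ) - j = i := by omega
    rw [e] at h1
    exact h1
  constructor
  · intro h j i hji
    exact (even j i hji).1 (h (2 * j) (2 * i) (by omega))
  · intro h a b hab
    rcases Nat.even_or_odd a with ⟨j, hj⟩ | hodd
    · obtain rfl : a = 2 * j := by omega
      obtain ⟨i, rfl⟩ : ∃ i, b = 2 * i := ⟨c - j, by omega⟩
      exact (even j i (by omega)).2 (h j i (by omega))
    · have hodd' : ∀ j, a ≠ 2 * j := by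
        intro j hj
        obtain ⟨k, hk⟩ := hodd
        omega
      have h1 := semisimpleAt_tensor (F := FA a) (G := GB b) hQK (c : ℤ) 0
        (fun μ ν N hN hμ hν hrel => by
          obtain ⟨j', hj', _⟩ := low_graded H hQ hA hB hU hab hN hμ hν hrel
          exact absurd hj' (hodd' j'))
      refine h1.2 ?_
      rintro ⟨μ, hμ, M, hM, h2⟩ ⟨ν, hν, M', hM', h3⟩
      exfalso
      have h4 : (μ * ν) ^ (M * M') = ((Q : K) ^ (c : ℤ)) ^ (M * M') := by
        rw [mul_pow, pow_mul, h2, mul_comm M M', pow_mul ν, h3, ← pow_mul, ← pow_mul,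
          mul_comm M M', ← mul_pow, ← zpow_add₀ hQK]
        congr 2
        simp
      obtain ⟨j', hj', _⟩ := low_graded H hQ hA hB hU hab (Nat.mul_pos hM hM') hμ hν h4
      exact hodd' j' hj'

/-- **Semisimplicity for the products.** -/
theorem main_all (H : FamCond ι α n 𝓛 S L₀) {Q : ℕ} (hQ : 0 < Q)
    (hA : IsBuiltFromLetters α n (Q : K) FA) (hB : HasWeights (Q : K) GB)
    (hU : ∀ b ν, (GB b).HasEigenvalue ν → IsSlopeProduct ι 𝓛 ν)
    (hA0 : ∃ d : ℕ, HasTateEigenvalue (FA (2 * d)) (Q : K) d)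
    (hB0 : ∃ d : ℕ, HasTateEigenvalue (GB (2 * d)) (Q : K) d) :
    (∀ a b c : ℕ, a + b = 2 * c → SemisimpleAt (TensorProduct.map (FA a) (GB b)) (Q : K) c) ↔
      (∀ j : ℕ, SemisimpleAt (FA (2 * j)) (Q : K) j) ∧
        ∀ i : ℕ, SemisimpleAt (GB (2 * i)) (Q : K) i := by
  obtain ⟨d, hd⟩ := hA0
  obtain ⟨d', hd'⟩ := hB0
  constructor
  · intro h
    refine ⟨fun j => ?_, fun i => ?_⟩
    · by_cases hj : HasTateEigenvalue (FA (2 * j)) (Q : K) j
      · exact ((main_degree H hQ hA hB hU (j + d')).1 (fun a b hab => h a b _ hab) j d' rfl hj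
          hd').1
      · exact semisimpleAt_of_not hj
    · by_cases hi : HasTateEigenvalue (GB (2 * i)) (Q : K) i
      · exact ((main_degree H hQ hA hB hU (d + i)).1 (fun a b hab => h a b _ hab) d i rfl hd
          hi).2
      · exact semisimpleAt_of_not hi
  · rintro ⟨h1, h2⟩ a b c hab
    exact (main_degree H hQ hA hB hU c).2 (fun j i _ _ _ => ⟨h1 j, h2 i⟩) a b hab

end graded

end Pool.Agent.Y103.Ss
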